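import Pool.Agent.H913R3.MH.Stmts

open MeasureTheory Set Filter Topology
open scoped ENNReal

namespace H913R3.MH

/-- maximal separated subset of a finite set of reals -/
theorem exists_maximal_sep (ε : ℝ) (F : Finset ℝ) :
    ∃ P : Finset ℝ, P ⊆ F ∧ (∀ x ∈ P, ∀ x' ∈ P, x ≠ x' → ε ≤ |x - x'|) ∧
      (∀ z ∈ F, ∃ z' ∈ P, z = z' ∨ |z - z'| < ε) := by
  classical
  induction F using Finset.induction_on with
  | empty => exact ⟨∅, by simp, by simp, by simp⟩
  | insert z F hz ih =>
    obtain ⟨P, hPF, hsep, hmax⟩ := ih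
    by_cases h : ∃ z' ∈ P, |z - z'| < ε
    · refine ⟨P, hPF.trans (Finset.subset_insert _ _), hsep, ?_⟩
      intro w hw
      rcases Finset.mem_insert.1 hw with rfl | hw
      · obtain ⟨z', hz', h'⟩ := h
        exact ⟨z', hz', Or.inr h'⟩
      · exact hmax w hw
    · push Not at h
      refine ⟨insert z P, Finset.insert_subset_insert _ hPF, ?_, ?_⟩
      · intro x hx x' hx' hne
        rcases Finset.mem_insert.1 hx with e | hxP
        · rcases Finset.mem_insert.1 hx' with e' | hx'P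
          · exact absurd (e.trans e'.symm) hne
          · rw [e]; exact h x' hx'P
        · rcases Finset.mem_insert.1 hx' with e' | hx'P
          · rw [e', abs_sub_comm]; exact h x hxP
          · exact hsep x hxP x' hx'P hne
      · intro w hw
        rcases Finset.mem_insert.1 hw with rfl | hw
        · exact ⟨w, Finset.mem_insert_self _ _, Or.inl rfl⟩
        · obtain ⟨z', hz', h'⟩ := hmax w hw
          exact ⟨z', Finset.mem_insert_of_mem hz', h'⟩

/-- the set of candidate resonant points -/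
def FF (m : ℕ) (θ : ℝ) (y : Fin m → ℝ) (N N' : ℤ) : Set ℝ :=
  {z | z ∈ Icc (-1 : ℝ) 2 ∧ ∃ q : Fin (m + 1) → ℤ, N ≤ q 0 ∧ q 0 ≤ N' ∧ (∀ j, |q j| ≤ q 0) ∧
    ∃ p : ℤ, (q 0 : ℝ) * z = p + θ - ∑ j : Fin m, (q j.succ : ℝ) * y j}

theorem FF_finite (m : ℕ) (θ : ℝ) (y : Fin m → ℝ) (N N' : ℤ) (hN : 0 < N) :
    (FF m θ y N N').Finite := by
  classical
  -- bound on p
  set B : ℝ := 2 * (N' : ℝ) + |θ| + ∑ j : Fin m, (N' : ℝ) * |y j| with hB
  let S : Finset ((Fin (m + 1) → ℤ) × ℤ) :=
    (Fintype.piFinset fun _ : Fin (m + 1) => Finset.Icc (-N') N') ×ˢ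
      Finset.Icc (-⌈B⌉) ⌈B⌉
  refine (S.image fun qp => ((qp.2 : ℝ) + θ - ∑ j : Fin m, (qp.1 j.succ : ℝ) * y j) /
    (qp.1 0 : ℝ)).finite_toSet.subset ?_
  rintro z ⟨hz, q, h1, h2, h3, p, hp⟩
  have hq0 : (0 : ℝ) < (q 0 : ℝ) := by exact_mod_cast lt_of_lt_of_le hN h1
  have hqj : ∀ j, |q j| ≤ N' := fun j => (h3 j).trans h2
  rw [Finset.coe_image]
  refine ⟨(q, p), ?_, ?_⟩
  · simp only [S, Finset.coe_product, Set.mem_prod, Finset.mem_coe, Fintype.mem_piFinset,
      Finset.mem_Icc]
    refine ⟨fun j => abs_le.1 (hqj j), ?_⟩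
    have hpB : |(p : ℝ)| ≤ B := by
      have e : (p : ℝ) = (q 0 : ℝ) * z - θ + ∑ j : Fin m, (q j.succ : ℝ) * y j := by linarith
      have hq0' : (q 0 : ℝ) ≤ N' := by exact_mod_cast h2
      have a1 : |(q 0 : ℝ) * z| ≤ 2 * N' := by
        rw [abs_mul, abs_of_pos hq0]
        have : |z| ≤ 2 := by rw [abs_le]; constructor <;> linarith [hz.1, hz.2]
        nlinarith [abs_nonneg z]
      have a2 : |∑ j : Fin m, (q j.succ : ℝ) * y j| ≤ ∑ j : Fin m, (N' : ℝ) * |y j| := by
        refine (Finset.abs_sum_le_sum_abs _ _).trans (Finset.sum_le_sum fun j _ => ?_)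
        rw [abs_mul]
        refine mul_le_mul_of_nonneg_right ?_ (abs_nonneg _)
        have := hqj j.succ
        exact_mod_cast this
      rw [e, hB]
      calc |(q 0 : ℝ) * z - θ + ∑ j : Fin m, (q j.succ : ℝ) * y j|
          ≤ |(q 0 : ℝ) * z - θ| + |∑ j : Fin m, (q j.succ : ℝ) * y j| := abs_add_le _ _
        _ ≤ |(q 0 : ℝ) * z| + |θ| + |∑ j : Fin m, (q j.succ : ℝ) * y j| := by
            gcongr; exact abs_sub _ _
        _ ≤ _ := by gcongr
    have hc : (B : ℝ) ≤ (⌈B⌉ : ℝ) := Int.le_ceil B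
    have := abs_le.1 (hpB.trans hc)
    constructor
    · exact_mod_cast this.1
    · exact_mod_cast this.2
  · simp only
    rw [← hp]
    field_simp

theorem taskCount (h1 : TaskCover) (h2 : TaskLocal) : TaskCount := by
  classical
  intro m
  obtain ⟨δ, hδ, hδ1, Q, hQ⟩ := h2 m
  set R : ℕ := ⌈6 / δ⌉₊ with hR
  have hR6 : 6 / δ ≤ (R : ℝ) := Nat.le_ceil _
  have hRpos : 1 ≤ R := by
    have : (0 : ℝ) < R := lt_of_lt_of_le (by positivity) hR6
    exact_mod_cast this
  have hRr : (1 : ℝ) ≤ R := by exact_mod_cast hRpos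
  refine ⟨δ, hδ, R, hRpos, 4 * |Q| + 100, ?_⟩
  intro θ y n hn
  have hnr : (1 : ℝ) ≤ n := by exact_mod_cast hn
  have hN : (0 : ℤ) < (R : ℤ) * n := by positivity
  set M : ℝ := (n : ℝ) ^ (m + 2) with hM
  have hMpos : 0 < M := by positivity
  have hM1 : 1 ≤ M := one_le_pow₀ hnr
  have hMn : (n : ℝ) ≤ M := by
    rw [hM]
    exact le_self_pow₀ hnr (by omega)
  obtain ⟨P, hPF, hsep, hmax⟩ := exists_maximal_sep (1 / M)
    (FF_finite m θ y ((R : ℤ) * n) (3 * R * n) hN).toFinset
  refine ⟨P, hsep, ?_, ?_⟩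
  · intro z hz
    have := hPF hz
    rw [Set.Finite.mem_toFinset] at this
    exact this.2
  · intro a b ha hab hb hQn hBd
    have hba : 0 < b - a := by linarith
    have hba1 : b - a ≤ 1 := by linarith
    set a' := a + (b - a) / 4 with ha'
    set b' := b - (b - a) / 4 with hb'
    have hab' : a' < b' := by rw [ha', hb']; linarith
    have hlen : b' - a' = (b - a) / 2 := by rw [ha', hb']; ring
    have hQ' : Q ≤ n * (b' - a') ^ 2 := by
      rw [hlen]
      have : Q ≤ |Q| := le_abs_self Q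
      nlinarith
    have hloc := hQ y n a' b' hn hab' (by rw [hlen]; linarith) hQ' hBd
    -- 2 / M ≤ (b - a) / 4
    have h100 : 100 ≤ n * (b - a) := by
      have h3 : (n : ℝ) * (b - a) ^ 2 ≤ n * (b - a) := by
        have : (b - a) ^ 2 ≤ (b - a) := by nlinarith
        gcongr
      have : 0 ≤ |Q| := abs_nonneg Q
      linarith
    have hMba : 100 ≤ M * (b - a) := by nlinarith
    have h2M : 2 / M ≤ (b - a) / 4 := by
      rw [div_le_div_iff₀ hMpos (by norm_num)]
      nlinarith
    set PP := P.filter (fun x => x ∈ Icc a b) with hPP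
    -- the covering
    have hcov : Icc a' b' ⊆ {t : ℝ | t ∈ Icc a' b' ∧
        ¬ Bd (m + 1) (m + 1) n δ (Fin.cons t y)} ∪
        ⋃ z ∈ PP, Icc (z - 2 / M) (z + 2 / M) := by
      intro t ht
      by_cases hg : Bd (m + 1) (m + 1) n δ (Fin.cons t y)
      swap
      · exact Or.inl ⟨ht, hg⟩
      right
      obtain ⟨q, hq, p, hp⟩ := h1 (m + 1) n δ hn hδ hδ1 _ hg R hR6 (θ - 2 * R * n * t)
      set q' : Fin (m + 1) → ℤ := fun j => Fin.cases (q 0 + 2 * R * n) (fun i => q i.succ) j
        with hq'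
      have q'0 : q' 0 = q 0 + 2 * R * n := rfl
      have q's : ∀ i : Fin m, q' i.succ = q i.succ := fun i => rfl
      have b0 := abs_le.1 (hq 0)
      have hq0l : (R : ℤ) * n ≤ q' 0 := by rw [q'0]; linarith [b0.1]
      have hq0u : q' 0 ≤ 3 * R * n := by rw [q'0]; linarith [b0.2]
      have hq'0pos : (0 : ℝ) < (q' 0 : ℝ) := by exact_mod_cast lt_of_lt_of_le hN hq0l
      have hall : ∀ j, |q' j| ≤ q' 0 := by
        intro j
        refine Fin.cases ?_ (fun i => ?_) j
        · rw [abs_of_pos (lt_of_lt_of_le hN hq0l)]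
        · rw [q's i]; exact (hq i.succ).trans hq0l
      rw [Fin.sum_univ_succ] at hp
      simp only [Fin.cons_zero, Fin.cons_succ] at hp
      set z : ℝ := (p + θ - ∑ j : Fin m, (q' j.succ : ℝ) * y j) / (q' 0 : ℝ) with hz
      have hzeq : (q' 0 : ℝ) * z = p + θ - ∑ j : Fin m, (q' j.succ : ℝ) * y j := by
        rw [hz]; field_simp
      have htz : |(q' 0 : ℝ) * (t - z)| ≤ R * (δ / (n : ℝ) ^ (m + 1)) := by
        have e : (q' 0 : ℝ) * (t - z) =
            (q 0 : ℝ) * t + ∑ j : Fin m, (q j.succ : ℝ) * y j - p - (θ - 2 * R * n * t) := by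
          rw [mul_sub, hzeq]
          have : (q' 0 : ℝ) = q 0 + 2 * R * n := by rw [q'0]; push_cast; ring
          rw [this]
          simp only [q's]
          ring
        rw [e]; exact hp
      have htz' : |t - z| ≤ 1 / M := by
        rw [abs_mul, abs_of_pos hq'0pos] at htz
        have hl : (R : ℝ) * n ≤ (q' 0 : ℝ) := by exact_mod_cast hq0l
        have h5 : (R : ℝ) * n * |t - z| ≤ R * (δ / (n : ℝ) ^ (m + 1)) :=
          (mul_le_mul_of_nonneg_right hl (abs_nonneg _)).trans htz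
        have hRp : (0 : ℝ) < R := by linarith
        have h6 : (n : ℝ) * |t - z| ≤ δ / (n : ℝ) ^ (m + 1) := by
          have : (R : ℝ) * (n * |t - z|) ≤ R * (δ / (n : ℝ) ^ (m + 1)) := by
            rw [← mul_assoc]; exact h5
          exact le_of_mul_le_mul_left this hRp
        rw [le_div_iff₀ hMpos]
        rw [le_div_iff₀ (by positivity)] at h6
        calc |t - z| * M = (n : ℝ) * |t - z| * (n : ℝ) ^ (m + 1) := by rw [hM]; ring
          _ ≤ δ := h6
          _ ≤ 1 := hδ1
      have hM1' : 1 / M ≤ 1 := by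
        rw [div_le_one hMpos]; exact hM1
      have hzF : z ∈ (FF_finite m θ y ((R : ℤ) * n) (3 * R * n) hN).toFinset := by
        rw [Set.Finite.mem_toFinset]
        have h7 := abs_le.1 htz'
        refine ⟨⟨?_, ?_⟩, q', hq0l, hq0u, hall, p, hzeq⟩
        · have := ht.1
          rw [ha'] at this
          linarith
        · have := ht.2
          rw [hb'] at this
          linarith
      obtain ⟨z', hz'P, hz'⟩ := hmax z hzF
      have hzz' : |z - z'| ≤ 1 / M := by
        rcases hz' with rfl | h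
        · rw [sub_self, abs_zero]; positivity
        · exact h.le
      have htz'' : |t - z'| ≤ 2 / M := by
        calc |t - z'| ≤ |t - z| + |z - z'| := abs_sub_le _ _ _
          _ ≤ 1 / M + 1 / M := by gcongr
          _ = 2 / M := by ring
      have h8 := abs_le.1 htz''
      have ht1 := ht.1
      have ht2 := ht.2
      rw [ha'] at ht1
      rw [hb'] at ht2
      have hz'PP : z' ∈ PP := by
        rw [hPP, Finset.mem_filter]
        exact ⟨hz'P, by constructor <;> linarith⟩
      simp only [mem_iUnion]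
      exact ⟨z', hz'PP, by constructor <;> linarith⟩
    have hvol : volume (Icc a' b') ≤ ENNReal.ofReal ((b' - a') / 2) +
        ∑ z ∈ PP, volume (Icc (z - 2 / M) (z + 2 / M)) := by
      refine (measure_mono hcov).trans ((measure_union_le _ _).trans ?_)
      gcongr
      exact measure_biUnion_finset_le _ _
    have hvz : ∀ z ∈ PP, volume (Icc (z - 2 / M) (z + 2 / M)) = ENNReal.ofReal (4 / M) := by
      intro z _
      rw [Real.volume_Icc]
      congr 1
      ring
    rw [Finset.sum_congr rfl hvz, Real.volume_Icc, Finset.sum_const, nsmul_eq_mul] at hvol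
    have h4M : 0 ≤ 4 / M := by positivity
    rw [← ENNReal.ofReal_natCast, ← ENNReal.ofReal_mul (by positivity),
      ← ENNReal.ofReal_add (by rw [hlen]; positivity) (by positivity),
      ENNReal.ofReal_le_ofReal_iff (by rw [hlen]; positivity)] at hvol
    rw [hlen] at hvol
    have h9 : (b - a) / 4 ≤ (PP.card : ℝ) * (4 / M) := by linarith
    have h10 : (b - a) / 4 * M ≤ (PP.card : ℝ) * 4 := by
      calc (b - a) / 4 * M ≤ (PP.card : ℝ) * (4 / M) * M := by gcongr
        _ = (PP.card : ℝ) * 4 := by field_simp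
    have : M * (b - a) / 16 ≤ (PP.card : ℝ) := by linarith
    exact this

end H913R3.MH
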